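import Pool.Agent.R497.TD.Defs

/-!
# Project TD, pieces PINC and WG (helper784)
-/

set_option autoImplicit false

namespace Pool.Agent.R497.TD.PINC784

open MeasureTheory Filter Finset Pool.Agent.R497.TD
open Pool.Agent.Y957.MC (IsFlow flowInv smo)

universe u

theorem lead_bound (Q : Polynomial ℝ) (hQ : 0 < Q.leadingCoeff) : ∃ c C : ℝ, 0 < c ∧ 0 < C ∧
    ∀ᶠ x : ℝ in atTop, c * x ^ Q.natDegree ≤ Q.eval x ∧ Q.eval x ≤ C * x ^ Q.natDegree := by
  obtain ⟨φ, hφ, he⟩ := Q.isEquivalent_atTop_lead.exists_eq_mul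
  refine ⟨Q.leadingCoeff / 2, 2 * Q.leadingCoeff, by positivity, by positivity, ?_⟩
  filter_upwards [he, hφ.eventually (lt_mem_nhds (show (1 / 2 : ℝ) < 1 by norm_num)),
    hφ.eventually (gt_mem_nhds (show (1 : ℝ) < 2 by norm_num)), eventually_ge_atTop 0]
    with x hx h1 h2 h3
  rw [hx]
  have h4 : 0 ≤ Q.leadingCoeff * x ^ Q.natDegree := mul_nonneg hQ.le (pow_nonneg h3 _)
  simp only [Pi.mul_apply]
  constructor <;> nlinarith

theorem mvt (P : Polynomial ℝ) {a b : ℝ} (h : a < b) :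
    ∃ ξ, a < ξ ∧ ξ < b ∧ P.eval b - P.eval a = P.derivative.eval ξ * (b - a) := by
  obtain ⟨ξ, hξ, h1⟩ := exists_deriv_eq_slope (fun x => P.eval x) h
    P.continuous.continuousOn P.differentiable.differentiableOn
  refine ⟨ξ, hξ.1, hξ.2, ?_⟩
  rw [Polynomial.deriv] at h1
  have h2 : b - a ≠ 0 := sub_ne_zero.2 h.ne'
  rw [h1]
  field_simp

theorem nonneg_eventually (Q : Polynomial ℝ) (hQ : 0 ≤ Q.leadingCoeff) :
    ∀ᶠ x : ℝ in atTop, 0 ≤ Q.eval x := by
  by_cases h : 0 < Q.degree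
  · exact (Q.tendsto_atTop_of_leadingCoeff_nonneg h hQ).eventually_ge_atTop 0
  · have h1 : Q.natDegree = 0 :=
      Polynomial.natDegree_eq_zero_iff_degree_le_zero.2 (not_lt.1 h)
    rw [Polynomial.eq_C_of_natDegree_eq_zero h1]
    refine Eventually.of_forall fun x => ?_
    rw [Polynomial.eval_C]
    rw [Polynomial.leadingCoeff, h1] at hQ
    exact hQ

theorem deriv_lead (P : Polynomial ℝ) (hd : 0 < P.natDegree) :
    P.derivative.natDegree = P.natDegree - 1 ∧
    P.derivative.leadingCoeff = P.leadingCoeff * P.natDegree := by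
  have h0 : P.derivative.coeff (P.natDegree - 1) = P.leadingCoeff * P.natDegree := by
    rw [Polynomial.coeff_derivative, Nat.sub_add_cancel hd, Polynomial.leadingCoeff]
    congr 1
    have : ((P.natDegree - 1 : ℕ) : ℝ) + 1 = ((P.natDegree - 1 + 1 : ℕ) : ℝ) := by push_cast; ring
    rw [this, Nat.sub_add_cancel hd]
  have h1 : P.derivative.natDegree = P.natDegree - 1 := by
    apply Polynomial.natDegree_eq_of_le_of_coeff_ne_zero (Polynomial.natDegree_derivative_le P)
    rw [h0]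
    have hP : P ≠ 0 := by rintro rfl; simp at hd
    exact mul_ne_zero (Polynomial.leadingCoeff_ne_zero.2 hP) (by exact_mod_cast hd.ne')
  exact ⟨h1, by rw [Polynomial.leadingCoeff, h1, h0]⟩

theorem deriv2_lead (P : Polynomial ℝ) (hl : 0 < P.leadingCoeff) :
    0 ≤ P.derivative.derivative.leadingCoeff := by
  have h1 : 0 ≤ P.derivative.leadingCoeff := by
    rcases Nat.eq_zero_or_pos P.natDegree with h | h
    · rw [Polynomial.eq_C_of_natDegree_eq_zero h]; simp
    · rw [(deriv_lead P h).2]; positivity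
  rcases Nat.eq_zero_or_pos P.derivative.natDegree with h | h
  · rw [Polynomial.eq_C_of_natDegree_eq_zero h]; simp
  · rw [(deriv_lead _ h).2]; positivity

theorem t_PINC : S_PINC := by
  intro P hd hl j
  obtain ⟨e1, e2⟩ := deriv_lead P hd
  obtain ⟨c, C, hc, hC, hb⟩ := lead_bound P.derivative (by rw [e2]; positivity)
  obtain ⟨X1, hX1⟩ := eventually_atTop.1 hb
  obtain ⟨X2, hX2⟩ := eventually_atTop.1 (nonneg_eventually _ (deriv2_lead P hl))
  have hj : (0 : ℝ) < (j : ℝ) + 1 := by positivity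
  refine ⟨c * (1 / ((j : ℝ) + 1)) ^ (P.natDegree - 1), C * 3 ^ (P.natDegree - 1), by positivity,
    by positivity, ?_⟩
  filter_upwards [(tendsto_natCast_atTop_atTop (R := ℝ)).eventually_ge_atTop
    (((j : ℝ) + 1) * max (max X1 X2) 1)] with N hN n hn hnN
  have h1 : max (max X1 X2) 1 ≤ 1 / ((j : ℝ) + 1) * N := by
    rw [one_div, inv_mul_eq_div, le_div_iff₀ hj]; linarith
  have h2 : 1 / ((j : ℝ) + 1) * N < (n : ℝ) + 1 := by
    have h3 := Nat.lt_floor_add_one (1 / ((j : ℝ) + 1) * (N : ℝ))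
    have h4 : ((⌊1 / ((j : ℝ) + 1) * (N : ℝ)⌋₊ : ℕ) : ℝ) ≤ n := by exact_mod_cast hn
    linarith
  have hn0 : (0 : ℝ) ≤ n := Nat.cast_nonneg n
  have hN0 : (n : ℝ) ≤ N := by exact_mod_cast hnN
  have hx1 : X1 ≤ (n : ℝ) + 1 := ((le_max_left _ _).trans (le_max_left _ _)).trans (h1.trans h2.le)
  have hx2 : X2 ≤ (n : ℝ) + 1 := ((le_max_right X1 X2).trans (le_max_left _ _)).trans (h1.trans h2.le)
  have hN1 : (1 : ℝ) ≤ N := by
    have h5 : (1 : ℝ) ≤ max (max X1 X2) 1 := le_max_right _ _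
    have h6 : (1 : ℝ) ≤ (j : ℝ) + 1 := by
      have : (0 : ℝ) ≤ j := Nat.cast_nonneg j
      linarith
    nlinarith
  obtain ⟨ξ, hξ1, hξ2, hξ⟩ := mvt P (show (n : ℝ) + 1 < (n : ℝ) + 2 by linarith)
  rw [show (n : ℝ) + 2 - ((n : ℝ) + 1) = 1 by ring, mul_one] at hξ
  have hb1 := hX1 ξ (by linarith)
  rw [e1] at hb1
  refine ⟨?_, ?_, ?_⟩
  · rw [hξ]
    refine le_trans ?_ hb1.1
    rw [mul_assoc, ← mul_pow]
    have : (1 / ((j : ℝ) + 1) * N) ^ (P.natDegree - 1) ≤ ξ ^ (P.natDegree - 1) :=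
      pow_le_pow_left₀ (by positivity) (by linarith) _
    exact mul_le_mul_of_nonneg_left this hc.le
  · rw [hξ]
    refine hb1.2.trans ?_
    rw [mul_assoc, ← mul_pow]
    have : ξ ^ (P.natDegree - 1) ≤ (3 * (N : ℝ)) ^ (P.natDegree - 1) :=
      pow_le_pow_left₀ (by linarith) (by linarith) _
    exact mul_le_mul_of_nonneg_left this hC.le
  · obtain ⟨η, hη1, hη2, hη⟩ := mvt (P.comp (Polynomial.X + Polynomial.C 1) - P)
      (show (n : ℝ) + 1 < (n : ℝ) + 2 by linarith)
    obtain ⟨ζ, hζ1, hζ2, hζ⟩ := mvt P.derivative (show η < η + 1 by linarith)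
    have h7 := hX2 ζ (by linarith)
    rw [show (n : ℝ) + 2 - ((n : ℝ) + 1) = 1 by ring, mul_one] at hη
    rw [show η + 1 - η = 1 by ring, mul_one] at hζ
    simp only [Polynomial.eval_sub, Polynomial.eval_comp, Polynomial.eval_add, Polynomial.eval_X,
      Polynomial.eval_C, Polynomial.derivative_sub, Polynomial.derivative_comp,
      Polynomial.derivative_add, Polynomial.derivative_X, Polynomial.derivative_C,
      add_zero, one_mul] at hη
    rw [show (n : ℝ) + 2 + 1 = (n : ℝ) + 3 by ring, show (n : ℝ) + 1 + 1 = (n : ℝ) + 2 by ring] at hη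
    linarith

theorem t_WG : S_WG.{u} := by
  intro X _ μ _ d W hW hC
  obtain ⟨C, hC⟩ := hC
  set V : ℕ → X → ℂ := fun n => (hW n).mk (W n) with hV
  have hVm : ∀ n, Measurable (V n) := fun n => (hW n).stronglyMeasurable_mk.measurable
  set V' : ℕ → X → ℂ := fun n x => if ‖V n x‖ ≤ C then V n x else 0 with hV'
  have hV'm : ∀ n, Measurable (V' n) := fun n =>
    Measurable.ite (measurableSet_le (hVm n).norm measurable_const) (hVm n) measurable_const
  have hV'C : ∀ n x, ‖V' n x‖ ≤ max C 0 := by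
    intro n x
    simp only [hV']
    split_ifs with h
    · exact h.trans (le_max_left _ _)
    · rw [norm_zero]; exact le_max_right _ _
  have hae : ∀ᵐ x ∂μ, ∀ n, W n x = V' n x := by
    rw [ae_all_iff]
    intro n
    filter_upwards [(hW n).ae_eq_mk, hC n] with x h1 h2
    simp only [hV', hV]
    rw [← h1, if_pos h2]
  refine ⟨⟨C, fun n => Eventually.of_forall fun a => hC n⟩, fun _ n _ x => V' n x, fun k => ?_, ?_⟩
  · refine ⟨fun n => (hV'm n).comp measurable_snd, max C 0, fun n a x => hV'C n x, ?_⟩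
    intro n _ a a' x
    rw [sub_self, norm_zero]
    positivity
  · refine Eventually.of_forall fun a => ?_
    filter_upwards [hae] with x hx ε hε
    refine ⟨0, Eventually.of_forall fun N => ?_⟩
    have : ∑ n ∈ Icc 1 N, ‖W n x - V' n x‖ = 0 :=
      Finset.sum_eq_zero fun n _ => by rw [hx n, sub_self, norm_zero]
    rw [this, mul_zero]
    exact hε.le

end Pool.Agent.R497.TD.PINC784
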