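import Mathlib
import Pool.Agent.Y957.MC.Spec

/-!
Project TD (helper497, hard problem MP_4d8f14_an): multiple averages of ARBITRARY measure preserving flows (no
commutation, no relation) at ONE generic time `a`, along polynomials of distinct degrees. Key: the factor of highest
degree decouples from everything else. Statements of the steps; proofs in NOTES.md.
-/

set_option autoImplicit false

namespace Pool.Agent.R497.TD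

open MeasureTheory Filter Finset
open Pool.Agent.Y957.MC (IsFlow flowInv smo)

universe u

/-- (KAP) averages of a bounded function over `[y/2, 3y]` depend on `y` in a Lipschitz way -/
def S_KAP : Prop := ∀ (φ : ℝ → ℝ) (C y y' : ℝ), Measurable φ → (∀ s, |φ s| ≤ C) → y ≠ 0 →
    |(∫ a in (1 / 2 : ℝ)..3, φ (a * y)) - ∫ a in (1 / 2 : ℝ)..3, φ (a * y')| ≤ 6 * C * |y - y'| / |y|

/-- (OSC) sums of a Lipschitz function with bounded primitive along a slowly increasing convex sequence -/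
def S_OSC : Prop := ∀ (G : ℝ → ℝ) (t : ℕ → ℝ) (C δ α β : ℝ) (H : ℕ), (∀ u v, |G u - G v| ≤ C * |u - v|) →
    (∀ u v, |∫ r in u..v, G r| ≤ C) → δ ≠ 0 → 0 < α →
    (∀ r, r < H → α ≤ t (r + 1) - t r ∧ t (r + 1) - t r ≤ β) →
    (∀ r, r + 1 < H → t (r + 1) - t r ≤ t (r + 2) - t (r + 1)) →
    |∑ r ∈ range H, G (δ * t r)| ≤ C / (|δ| * α) + C * H * |δ| * β

/-- (DBD) mean square over `a` and `x` by blocks -/
def S_DBD : Prop := ∀ (X : Type u) [MeasurableSpace X] (μ : Measure X) [IsProbabilityMeasure μ] (σ : ℝ → X → X)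
    (V : ℕ → X → ℝ) (Q : ℕ → ℝ) (R H : ℕ) (Bad : Finset (ℕ × ℕ)) (ε Y Z : ℝ), IsFlow μ σ →
    (∀ n, Measurable (V n)) → (∀ n x, |V n x| ≤ 1) → 0 < R → 0 < H → 0 < Y → 0 ≤ Z → 0 ≤ ε →
    (∀ b b', b < R → b' < R → (b, b') ∉ Bad →
      (∀ r, r < H → ∀ x, V (b * H + r) x = 0) ∨ (∀ r, r < H → ∀ x, V (b' * H + r) x = 0) ∨
      ((∀ r r', r < H → r' < H → Y ≤ |Q (b * H + r) - Q (b' * H + r')| ∧
          |(Q (b * H + r) - Q (b' * H + r')) - (Q (b * H) - Q (b' * H))| ≤ Z) ∧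
        (∀ x, |∑ r ∈ range H, V (b * H + r) x| ≤ ε * H) ∧
        (∀ x, |∑ r ∈ range H, V (b' * H + r) x| ≤ ε * H))) →
    ∫ a in (1 / 2 : ℝ)..3, ∫ x, ((1 / ((R * H : ℕ) : ℝ)) * ∑ n ∈ range (R * H), V n (σ (a * Q n) x)) ^ 2 ∂μ ≤
      3 * ((Bad.card : ℝ) / (R : ℝ) ^ 2) + 6 * Z / Y + 3 * ε ^ 2

/-- (PTW) arbitrary coefficients are removed by the Cauchy-Schwarz inequality -/
def S_PTW : Prop := ∀ (N : ℕ) (b : ℕ → ℝ) (w : ℕ → ℝ → ℝ) (ℓ θ : ℝ), 0 < N → 0 < ℓ → 0 < θ → (∀ n, |b n| ≤ 1) →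
    (∀ n, Measurable (w n)) → (∀ n s, |w n s| ≤ 1) →
    (1 / ℓ) * ∫ s in (0 : ℝ)..ℓ, ((1 / (N : ℝ)) * ∑ n ∈ range N, b n * w n s) ^ 2 ≤
      θ / 2 + 1 / (2 * θ) * ((1 / ℓ ^ 2) * ∫ s in (0 : ℝ)..ℓ, ∫ s' in (0 : ℝ)..ℓ,
        ((1 / (N : ℝ)) * ∑ n ∈ range N, w n s * w n s') ^ 2)

/-- (JBD) mean square with coefficients which vary slowly in `a` -/
def S_JBD : Prop := ∀ (X : Type u) [MeasurableSpace X] (μ : Measure X) [IsProbabilityMeasure μ] (σ : ℝ → X → X)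
    (g : ℕ → X → ℝ) (B : ℕ → ℝ → X → ℝ) (Q : ℕ → ℝ) (N : ℕ) (ℓ ρ θ Λ D : ℝ), IsFlow μ σ →
    (∀ n, Measurable (g n)) → (∀ n x, |g n x| ≤ 1) → (∀ n, Measurable fun q : ℝ × X => B n q.1 q.2) →
    (∀ n a x, |B n a x| ≤ 1) → (∀ n, n < N → ∀ a a' x, |B n a x - B n a' x| ≤ Λ * |a - a'|) → 0 < N →
    0 < ℓ → ℓ ≤ 1 / 2 → 0 ≤ ρ → 0 < θ → 0 ≤ D → 0 ≤ Λ →
    (∀ δ, ρ ≤ |δ| → |δ| ≤ ℓ → ∫ a in (1 / 2 : ℝ)..3, ∫ x, ((1 / (N : ℝ)) * ∑ n ∈ range N,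
        (g n (σ (a * Q n) x) * g n (σ (δ * Q n) (σ (a * Q n) x)))) ^ 2 ∂μ ≤ D) →
    ∫ a in (1 : ℝ)..2, ∫ x, ((1 / (N : ℝ)) * ∑ n ∈ range N, B n a x * g n (σ (a * Q n) x)) ^ 2 ∂μ ≤
      2 * θ + 1 / θ * (D + 5 * ρ / ℓ) + 3 * (Λ * ℓ) ^ 2

/-- (BC) from mean squares along `K ^ 16` to almost everywhere convergence -/
def S_BC : Prop := ∀ (Ω : Type u) [MeasurableSpace Ω] (ν : Measure Ω) [IsFiniteMeasure ν] (c : ℕ → Ω → ℝ),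
    (∀ n, Measurable (c n)) → (∀ n ω, |c n ω| ≤ 1) →
    (∀ j : ℕ, ∃ C : ℝ, ∀ᶠ K : ℕ in atTop, ∫ ω, ((1 / ((K ^ 16 : ℕ) : ℝ)) * ∑ n ∈ range (K ^ 16),
      if ⌊(1 / ((j : ℝ) + 1)) * ((K ^ 16 : ℕ) : ℝ)⌋₊ ≤ n then c (n + 1) ω else 0) ^ 2 ∂ν ≤ C / (K : ℝ) ^ 2) →
    ∀ᵐ ω ∂ν, Tendsto (fun N : ℕ => (1 / (N : ℝ)) * ∑ n ∈ Icc 1 N, c n ω) atTop (nhds 0)

/-- (PINC) increments of a polynomial -/
def S_PINC : Prop := ∀ P : Polynomial ℝ, 0 < P.natDegree → 0 < P.leadingCoeff → ∀ j : ℕ, ∃ c C : ℝ, 0 < c ∧ 0 < C ∧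
    ∀ᶠ N : ℕ in atTop, ∀ n : ℕ, ⌊(1 / ((j : ℝ) + 1)) * (N : ℝ)⌋₊ ≤ n → n ≤ N →
      c * (N : ℝ) ^ (P.natDegree - 1) ≤ P.eval ((n : ℝ) + 2) - P.eval ((n : ℝ) + 1) ∧
      P.eval ((n : ℝ) + 2) - P.eval ((n : ℝ) + 1) ≤ C * (N : ℝ) ^ (P.natDegree - 1) ∧
      P.eval ((n : ℝ) + 2) - P.eval ((n : ℝ) + 1) ≤ P.eval ((n : ℝ) + 3) - P.eval ((n : ℝ) + 2)

/-- nice functions: Lipschitz along the flow, with bounded primitives -/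
def NiceG {X : Type u} [MeasurableSpace X] (σ : ℝ → X → X) (g : X → ℝ) : Prop := Measurable g ∧ ∃ C : ℝ,
    (∀ x, |g x| ≤ C) ∧ (∀ u v x, |g (σ u x) - g (σ v x)| ≤ C * |u - v|) ∧ ∀ u v x, |∫ r in u..v, g (σ r x)| ≤ C

/-- nice weights: Lipschitz in `a` with constant `C n ^ (d - 1)` -/
def NiceW {X : Type u} [MeasurableSpace X] (d : ℕ) (B : ℕ → ℝ → X → ℂ) : Prop :=
    (∀ n, Measurable fun q : ℝ × X => B n q.1 q.2) ∧ ∃ C : ℝ, (∀ n a x, ‖B n a x‖ ≤ C) ∧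
    ∀ n, 1 ≤ n → ∀ a a' x, ‖B n a x - B n a' x‖ ≤ C * (n : ℝ) ^ (d - 1) * |a - a'|

/-- (CORE) the main case, `a` in `[1, 2]` -/
def S_CORE : Prop := ∀ (X : Type u) [MeasurableSpace X] (μ : Measure X) [IsProbabilityMeasure μ] (σ : ℝ → X → X)
    (g : X → ℝ) (P : Polynomial ℝ) (B : ℕ → ℝ → X → ℂ), IsFlow μ σ → NiceG σ g → 0 < P.natDegree →
    0 < P.leadingCoeff → NiceW P.natDegree B → ∀ᵐ a ∂(volume.restrict (Set.Icc (1 : ℝ) 2)), ∀ᵐ x ∂μ,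
      Tendsto (fun N : ℕ => (1 / (N : ℂ)) * ∑ n ∈ Icc 1 N, B n a x * (g (σ (a * P.eval (n : ℝ)) x) : ℂ))
        atTop (nhds 0)

/-- (CORER) the same for almost all real `a` and all polynomials of positive degree -/
def S_CORER : Prop := ∀ (X : Type u) [MeasurableSpace X] (μ : Measure X) [IsProbabilityMeasure μ] (σ : ℝ → X → X)
    (g : X → ℝ) (P : Polynomial ℝ) (B : ℕ → ℝ → X → ℂ), IsFlow μ σ → NiceG σ g → 0 < P.natDegree →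
    NiceW P.natDegree B → ∀ᵐ a : ℝ, ∀ᵐ x ∂μ,
      Tendsto (fun N : ℕ => (1 / (N : ℂ)) * ∑ n ∈ Icc 1 N, B n a x * (g (σ (a * P.eval (n : ℝ)) x) : ℂ))
        atTop (nhds 0)

/-- good weights: approximated in the mean by nice ones -/
def GoodW {X : Type u} [MeasurableSpace X] (μ : Measure X) (d : ℕ) (B : ℕ → ℝ → X → ℂ) : Prop :=
    (∃ C : ℝ, ∀ n, ∀ᵐ a : ℝ, ∀ᵐ x ∂μ, ‖B n a x‖ ≤ C) ∧ ∃ Bk : ℕ → ℕ → ℝ → X → ℂ, (∀ k, NiceW d (Bk k)) ∧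
    ∀ᵐ a : ℝ, ∀ᵐ x ∂μ, ∀ ε : ℝ, 0 < ε → ∃ k, ∀ᶠ N : ℕ in atTop,
      (1 / (N : ℝ)) * ∑ n ∈ Icc 1 N, ‖B n a x - Bk k n a x‖ ≤ ε

/-- (CTRL) averages of one function at the times `a P(n)` -/
def S_CTRL : Prop := ∀ (X : Type u) [MeasurableSpace X] (μ : Measure X) [IsProbabilityMeasure μ] (τ : ℝ → X → X)
    (e : X → ℝ) (P : Polynomial ℝ), IsFlow μ τ → Measurable e → (∃ C, ∀ x, |e x| ≤ C) → 0 < P.natDegree →
    ∀ᵐ a : ℝ, ∀ᵐ x ∂μ, Tendsto (fun N : ℕ => (1 / (N : ℝ)) * ∑ n ∈ Icc 1 N, e (τ (a * P.eval (n : ℝ)) x)) atTop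
      (nhds ((μ[e | flowInv τ]) x))

/-- (APX) approximation by functions which are Lipschitz along the flow -/
def S_APX : Prop := ∀ (X : Type u) [MeasurableSpace X] (μ : Measure X) [IsProbabilityMeasure μ] (τ : ℝ → X → X)
    (f : X → ℂ), IsFlow μ τ → Measurable f → (∃ C, ∀ x, ‖f x‖ ≤ C) → ∃ fk : ℕ → X → ℂ, (∀ k, Measurable (fk k)) ∧
    (∃ C, ∀ k x, ‖fk k x‖ ≤ C) ∧ (∀ k, ∃ C, ∀ u v x, ‖fk k (τ u x) - fk k (τ v x)‖ ≤ C * |u - v|) ∧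
    ∀ᵐ x ∂μ, ∀ ε : ℝ, 0 < ε → ∃ k, (μ[fun y => ‖f y - fk k y‖ | flowInv τ]) x < ε

/-- (APXG) approximation of `g - E(g|σ)` by nice functions -/
def S_APXG : Prop := ∀ (X : Type u) [MeasurableSpace X] (μ : Measure X) [IsProbabilityMeasure μ] (σ : ℝ → X → X)
    (g : X → ℝ), IsFlow μ σ → Measurable g → (∃ C, ∀ x, |g x| ≤ C) → ∃ (gb : X → ℝ) (gk : ℕ → X → ℝ),
    Measurable gb ∧ (∃ C, ∀ x, |gb x| ≤ C) ∧ (∀ t x, gb (σ t x) = gb x) ∧ gb =ᵐ[μ] μ[g | flowInv σ] ∧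
    (∀ k, NiceG σ (gk k)) ∧
    ∀ᵐ x ∂μ, ∀ ε : ℝ, 0 < ε → ∃ k, (μ[fun y => |g y - gb y - gk k y| | flowInv σ]) x < ε

/-- (FG) one factor of lower degree is a good weight -/
def S_FG : Prop := ∀ (X : Type u) [MeasurableSpace X] (μ : Measure X) [IsProbabilityMeasure μ] (τ : ℝ → X → X)
    (f : X → ℂ) (P : Polynomial ℝ) (d : ℕ), IsFlow μ τ → AEStronglyMeasurable f μ →
    (∃ C : ℝ, ∀ᵐ x ∂μ, ‖f x‖ ≤ C) → 0 < P.natDegree → P.natDegree < d →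
    GoodW μ d (fun n a x => f (τ (a * P.eval (n : ℝ)) x))

/-- (PROD) products of good weights -/
def S_PROD : Prop := ∀ (X : Type u) [MeasurableSpace X] (μ : Measure X) [IsProbabilityMeasure μ] (d : ℕ)
    (B F : ℕ → ℝ → X → ℂ), GoodW μ d B → GoodW μ d F → GoodW μ d (fun n a x => B n a x * F n a x)

/-- (WG) weights which do not depend on `a` -/
def S_WG : Prop := ∀ (X : Type u) [MeasurableSpace X] (μ : Measure X) [IsProbabilityMeasure μ] (d : ℕ)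
    (W : ℕ → X → ℂ), (∀ n, AEStronglyMeasurable (W n) μ) → (∃ C : ℝ, ∀ n, ∀ᵐ x ∂μ, ‖W n x‖ ≤ C) →
    GoodW μ d (fun n _ x => W n x)

/-- (TOP) the factor of highest degree decouples -/
def S_TOP : Prop := ∀ (X : Type u) [MeasurableSpace X] (μ : Measure X) [IsProbabilityMeasure μ] (σ : ℝ → X → X)
    (g : X → ℂ) (P : Polynomial ℝ) (B : ℕ → ℝ → X → ℂ), IsFlow μ σ → AEStronglyMeasurable g μ →
    (∃ C : ℝ, ∀ᵐ x ∂μ, ‖g x‖ ≤ C) → 0 < P.natDegree → GoodW μ P.natDegree B → ∀ᵐ a : ℝ, ∀ᵐ x ∂μ,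
      Tendsto (fun N : ℕ => (1 / (N : ℂ)) * ∑ n ∈ Icc 1 N, B n a x *
        (g (σ (a * P.eval (n : ℝ)) x) - (μ[g | flowInv σ]) x)) atTop (nhds 0)

/-- (FIN) all degrees distinct -/
def S_FIN : Prop := ∀ (X : Type u) [MeasurableSpace X] (μ : Measure X) [IsProbabilityMeasure μ] (m : ℕ)
    (τ : Fin m → ℝ → X → X) (f : Fin m → X → ℂ) (P : Fin m → Polynomial ℝ) (W : ℕ → X → ℂ), (∀ j, IsFlow μ (τ j)) →
    (∀ j, AEStronglyMeasurable (f j) μ) → (∀ j, ∃ C : ℝ, ∀ᵐ x ∂μ, ‖f j x‖ ≤ C) → (∀ j, 0 < (P j).natDegree) →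
    (Function.Injective fun j => (P j).natDegree) → (∀ n, AEStronglyMeasurable (W n) μ) →
    (∃ C : ℝ, ∀ n, ∀ᵐ x ∂μ, ‖W n x‖ ≤ C) → ∀ᵐ a : ℝ, ∀ᵐ x ∂μ,
      Tendsto (fun N : ℕ => (1 / (N : ℂ)) * ∑ n ∈ Icc 1 N, W n x * ∏ j, f j (τ j (a * (P j).eval (n : ℝ)) x) -
        (∏ j, (μ[f j | flowInv (τ j)]) x) * ((1 / (N : ℂ)) * ∑ n ∈ Icc 1 N, W n x)) atTop (nhds 0)

end Pool.Agent.R497.TD
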