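import Pool.Agent.R497.TD.Defs

set_option autoImplicit false

/-! The mean square bound for `D(δ)`: choice of the parameters `N = K ^ 16`, blocks of length `K ^ 8`. -/

namespace Pool.Agent.R497.TD

open MeasureTheory Filter Finset
open Pool.Agent.Y957.MC (IsFlow flowInv smo)

universe u

/-- sums of increments -/
lemma inc_sum {Q : ℕ → ℝ} {α β : ℝ} {m : ℕ} : ∀ k : ℕ,
    (∀ i, m ≤ i → i < m + k → α ≤ Q (i + 1) - Q i ∧ Q (i + 1) - Q i ≤ β) →
    (k : ℝ) * α ≤ Q (m + k) - Q m ∧ Q (m + k) - Q m ≤ (k : ℝ) * β := by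
  intro k
  induction k with
  | zero => intro _; simp
  | succ k ih =>
    intro h
    have h1 := ih (fun i h1 h2 => h i h1 (by omega))
    have h2 := h (m + k) (by omega) (by omega)
    push_cast
    rw [← add_assoc]
    constructor
    · linarith [h1.1, h2.1]
    · linarith [h1.2, h2.2]

/-- the bad pairs of blocks -/
def bad (K L : ℕ) : Finset (ℕ × ℕ) := ((range (K ^ 8)) ×ˢ (range (K ^ 8))).filter
  (fun p => (p.1 ≤ p.2 + K ^ 4 ∧ p.2 ≤ p.1 + K ^ 4) ∨ p.1 = L / K ^ 8 ∨ p.2 = L / K ^ 8)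

lemma bad_card (K L : ℕ) (hK : 1 ≤ K) : (bad K L).card ≤ 5 * (K ^ 8 * K ^ 4) := by
  classical
  have h1 : bad K L ⊆ ((((range (K ^ 8)) ×ˢ (range (K ^ 8))).filter
      (fun p => p.1 ≤ p.2 + K ^ 4 ∧ p.2 ≤ p.1 + K ^ 4)) ∪ (({L / K ^ 8} : Finset ℕ) ×ˢ range (K ^ 8))) ∪
      (range (K ^ 8) ×ˢ ({L / K ^ 8} : Finset ℕ)) := by
    intro p hp
    unfold bad at hp
    rw [mem_filter, mem_product] at hp
    rw [mem_union, mem_union, mem_filter, mem_product, mem_product, mem_product, mem_singleton, mem_singleton]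
    tauto
  have h2 : (((range (K ^ 8)) ×ˢ (range (K ^ 8))).filter
      (fun p => p.1 ≤ p.2 + K ^ 4 ∧ p.2 ≤ p.1 + K ^ 4)).card ≤ K ^ 8 * (2 * K ^ 4 + 1) := by
    have h3 : (range (K ^ 8) ×ˢ range (2 * K ^ 4 + 1)).card = K ^ 8 * (2 * K ^ 4 + 1) := by
      rw [card_product, card_range, card_range]
    rw [← h3]
    refine card_le_card_of_injOn (fun p : ℕ × ℕ => (p.1, p.2 + K ^ 4 - p.1)) ?_ ?_
    · intro p hp
      simp only [coe_filter, mem_product, mem_range, Set.mem_ofPred_eq] at hp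
      simp only [coe_product, Set.mem_prod, coe_range, Set.mem_Iio]
      refine ⟨hp.1.1, ?_⟩
      omega
    · intro p hp q hq h
      simp only [coe_filter, mem_product, mem_range, Set.mem_ofPred_eq] at hp hq
      simp only [Prod.mk.injEq] at h
      refine Prod.ext h.1 ?_
      omega
  have h4 := card_le_card h1
  have h5 := card_union_le (((((range (K ^ 8)) ×ˢ (range (K ^ 8))).filter
      (fun p => p.1 ≤ p.2 + K ^ 4 ∧ p.2 ≤ p.1 + K ^ 4)) ∪ (({L / K ^ 8} : Finset ℕ) ×ˢ range (K ^ 8))))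
      (range (K ^ 8) ×ˢ ({L / K ^ 8} : Finset ℕ))
  have h6 := card_union_le (((range (K ^ 8)) ×ˢ (range (K ^ 8))).filter
      (fun p => p.1 ≤ p.2 + K ^ 4 ∧ p.2 ≤ p.1 + K ^ 4)) (({L / K ^ 8} : Finset ℕ) ×ˢ range (K ^ 8))
  rw [card_product, card_singleton, card_range, one_mul] at h6
  rw [card_product (range (K ^ 8)) ({L / K ^ 8} : Finset ℕ), card_singleton, card_range, mul_one] at h5
  have h7 : 1 ≤ K ^ 4 := Nat.one_le_pow _ _ hK
  have h8 : K ^ 8 ≤ K ^ 8 * K ^ 4 := Nat.le_mul_of_pos_right _ h7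
  nlinarith

theorem dcore (hO : S_OSC) (hD : S_DBD.{u}) {X : Type u} [MeasurableSpace X] {μ : Measure X} [IsProbabilityMeasure μ]
    {σ : ℝ → X → X} (hσ : IsFlow μ σ) {g : X → ℝ} (hgm : Measurable g) (hg1 : ∀ x, |g x| ≤ 1) {C : ℝ}
    (hgl : ∀ u v x, |g (σ u x) - g (σ v x)| ≤ C * |u - v|) (hgp : ∀ u v x, |∫ r in u..v, g (σ r x)| ≤ C)
    {Q : ℕ → ℝ} {K L : ℕ} (hK : 1 ≤ K) {c C' S : ℝ} (hc : 0 < c) (hC' : 0 < C') (hS : 0 < S)
    (hinc : ∀ n, L ≤ n → n ≤ K ^ 16 → c * S ≤ Q (n + 1) - Q n ∧ Q (n + 1) - Q n ≤ C' * S ∧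
      Q (n + 1) - Q n ≤ Q (n + 2) - Q (n + 1))
    {δ : ℝ} (hδ1 : 1 / (S * (K : ℝ) ^ 6) ≤ |δ|) (hδ2 : |δ| ≤ 1 / (S * (K : ℝ) ^ 2)) :
    ∫ a in (1 / 2 : ℝ)..3, ∫ x, ((1 / ((K ^ 16 : ℕ) : ℝ)) * ∑ n ∈ range (K ^ 16),
      ((if L ≤ n then g (σ (a * Q n) x) else 0) * (if L ≤ n then g (σ (δ * Q n) (σ (a * Q n) x)) else 0))) ^ 2 ∂μ ≤
      (15 + 6 * C' / c + 3 * (C / c + C * C') ^ 2) / (K : ℝ) ^ 4 := by
  have hne : Nonempty X := nonempty_of_isProbabilityMeasure μ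
  have hC0 : 0 ≤ C := by
    obtain ⟨x⟩ := hne
    exact (abs_nonneg _).trans (hgp 0 0 x)
  have hKR : (1 : ℝ) ≤ K := by exact_mod_cast hK
  have hK0 : (0 : ℝ) < K := by linarith
  have hδ0 : 0 < |δ| := lt_of_lt_of_le (by positivity) hδ1
  have hδne : δ ≠ 0 := abs_pos.1 hδ0
  set V : ℕ → X → ℝ := fun n y => (if L ≤ n then g y else 0) * (if L ≤ n then g (σ (δ * Q n) y) else 0) with hV
  have hVm : ∀ n, Measurable (V n) := by
    intro n
    simp only [hV]
    have h1 : Measurable fun y => g (σ (δ * Q n) y) := hgm.comp (hσ.meas.comp (measurable_const.prodMk measurable_id))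
    split_ifs
    · exact hgm.mul h1
    · exact measurable_const.mul measurable_const
  have hV1 : ∀ n x, |V n x| ≤ 1 := by
    intro n x
    simp only [hV]
    split_ifs
    · rw [abs_mul]
      exact mul_le_one₀ (hg1 _) (abs_nonneg _) (hg1 _)
    · simp
  set ε : ℝ := (C / c + C * C') / (K : ℝ) ^ 2 with hε
  set Y : ℝ := (K : ℝ) ^ 12 * (c * S) with hY
  set Z : ℝ := (K : ℝ) ^ 8 * (C' * S) with hZ
  have hmain := hD X μ σ V Q (K ^ 8) (K ^ 8) (bad K L) ε Y Z hσ hVm hV1 (by positivity) (by positivity)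
    (by positivity) (by positivity) (by positivity) ?_
  · have e16 : K ^ 8 * K ^ 8 = K ^ 16 := by ring
    rw [e16] at hmain
    refine hmain.trans ?_
    have h1 : ((bad K L).card : ℝ) ≤ 5 * ((K : ℝ) ^ 8 * (K : ℝ) ^ 4) := by exact_mod_cast bad_card K L hK
    have h2 : ((bad K L).card : ℝ) / (((K ^ 8 : ℕ) : ℝ)) ^ 2 ≤ 5 / (K : ℝ) ^ 4 := by
      rw [div_le_div_iff₀ (by positivity) (by positivity)]
      push_cast
      calc ((bad K L).card : ℝ) * (K : ℝ) ^ 4 ≤ (5 * ((K : ℝ) ^ 8 * (K : ℝ) ^ 4)) * (K : ℝ) ^ 4 := by gcongr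
        _ = 5 * ((K : ℝ) ^ 8) ^ 2 := by ring
    have h3 : 6 * Z / Y = (6 * C' / c) / (K : ℝ) ^ 4 := by
      rw [hZ, hY]
      field_simp
      
    have h4 : 3 * ε ^ 2 = 3 * (C / c + C * C') ^ 2 / (K : ℝ) ^ 4 := by
      rw [hε]
      field_simp
    rw [h3, h4, add_div, add_div]
    have h5 : 3 * (((bad K L).card : ℝ) / (((K ^ 8 : ℕ) : ℝ)) ^ 2) ≤ 15 / (K : ℝ) ^ 4 := by
      calc _ ≤ 3 * (5 / (K : ℝ) ^ 4) := by gcongr
        _ = _ := by ring
    linarith
  · intro b b' hb hb' hbad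
    have hnb : ¬ ((b ≤ b' + K ^ 4 ∧ b' ≤ b + K ^ 4) ∨ b = L / K ^ 8 ∨ b' = L / K ^ 8) := by
      intro h
      apply hbad
      unfold bad
      rw [mem_filter, mem_product, mem_range, mem_range]
      exact ⟨⟨hb, hb'⟩, h⟩
    have hH : 0 < K ^ 8 := by positivity
    have hlow : ∀ b r, b < L / K ^ 8 → r < K ^ 8 → b * K ^ 8 + r < L := by
      intro b r h1 h2
      have h3 : (b + 1) * K ^ 8 ≤ L / K ^ 8 * K ^ 8 := Nat.mul_le_mul_right _ h1
      have h4 := Nat.div_mul_le_self L (K ^ 8)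
      nlinarith
    have hhigh : ∀ b, L / K ^ 8 < b → L ≤ b * K ^ 8 := by
      intro b h1
      have h2 := Nat.lt_div_mul_add (a := L) hH
      have h3 : (L / K ^ 8 + 1) * K ^ 8 ≤ b * K ^ 8 := Nat.mul_le_mul_right _ h1
      nlinarith
    have hup : ∀ b r, b < K ^ 8 → r < K ^ 8 → b * K ^ 8 + r < K ^ 16 := by
      intro b r h1 h2
      have h3 : (b + 1) * K ^ 8 ≤ K ^ 8 * K ^ 8 := Nat.mul_le_mul_right _ h1
      have h4 : K ^ 8 * K ^ 8 = K ^ 16 := by ring
      nlinarith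
    by_cases h1 : b < L / K ^ 8
    · left
      intro r hr x
      simp only [hV]
      rw [if_neg (by have := hlow b r h1 hr; omega), zero_mul]
    by_cases h2 : b' < L / K ^ 8
    · right; left
      intro r hr x
      simp only [hV]
      rw [if_neg (by have := hlow b' r h2 hr; omega), zero_mul]
    right; right
    have hb1 : L / K ^ 8 < b := by
      have : b ≠ L / K ^ 8 := fun h => hnb (Or.inr (Or.inl h))
      omega
    have hb2 : L / K ^ 8 < b' := by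
      have : b' ≠ L / K ^ 8 := fun h => hnb (Or.inr (Or.inr h))
      omega
    have hL1 := hhigh b hb1
    have hL2 := hhigh b' hb2
    have hblock : ∀ b, L ≤ b * K ^ 8 → b < K ^ 8 → ∀ r, r < K ^ 8 →
        0 ≤ Q (b * K ^ 8 + r) - Q (b * K ^ 8) ∧ Q (b * K ^ 8 + r) - Q (b * K ^ 8) ≤ Z := by
      intro b hL hb r hr
      have h3 := inc_sum (Q := Q) (α := 0) (β := C' * S) (m := b * K ^ 8) r (fun i hi1 hi2 => by
        have h4 := hup b r hb hr
        have h5 := hinc i (by omega) (by omega)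
        exact ⟨le_trans (by positivity) h5.1, h5.2.1⟩)
      refine ⟨by linarith [h3.1], h3.2.trans ?_⟩
      rw [hZ]
      have : (r : ℝ) ≤ (K : ℝ) ^ 8 := by exact_mod_cast hr.le
      exact mul_le_mul_of_nonneg_right this (by positivity)
    have hfar : ∀ b b', L ≤ b * K ^ 8 → L ≤ b' * K ^ 8 → b < K ^ 8 → b' < K ^ 8 → b' + K ^ 4 < b →
        ∀ r r', r < K ^ 8 → r' < K ^ 8 → Y ≤ Q (b * K ^ 8 + r) - Q (b' * K ^ 8 + r') := by
      intro b b' hL hL' hb hb' hbb r r' hr hr'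
      obtain ⟨k, hk⟩ : ∃ k, b * K ^ 8 + r = (b' * K ^ 8 + r') + k ∧ K ^ 12 ≤ k := by
        have h3 : (b' + K ^ 4 + 1) * K ^ 8 ≤ b * K ^ 8 := Nat.mul_le_mul_right _ hbb
        have h4 : (b' + K ^ 4 + 1) * K ^ 8 = b' * K ^ 8 + K ^ 12 + K ^ 8 := by ring
        refine ⟨b * K ^ 8 + r - (b' * K ^ 8 + r'), by omega, by omega⟩
      rw [hk.1]
      have h3 := inc_sum (Q := Q) (α := c * S) (β := C' * S) (m := b' * K ^ 8 + r') k (fun i hi1 hi2 => by
        have h4 := hup b r hb hr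
        have h5 := hinc i (by omega) (by omega)
        exact ⟨h5.1, h5.2.1⟩)
      refine le_trans ?_ h3.1
      rw [hY]
      have : (K : ℝ) ^ 12 ≤ k := by exact_mod_cast hk.2
      exact mul_le_mul_of_nonneg_right this (by positivity)
    have hosc : ∀ b, L ≤ b * K ^ 8 → b < K ^ 8 → ∀ x, |∑ r ∈ range (K ^ 8), V (b * K ^ 8 + r) x| ≤
        ε * ((K ^ 8 : ℕ) : ℝ) := by
      intro b hL hb x
      have e1 : ∑ r ∈ range (K ^ 8), V (b * K ^ 8 + r) x =
          g x * ∑ r ∈ range (K ^ 8), g (σ (δ * Q (b * K ^ 8 + r)) x) := by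
        rw [mul_sum]
        refine sum_congr rfl fun r _ => ?_
        simp only [hV]
        rw [if_pos (by omega), if_pos (by omega)]
      rw [e1, abs_mul]
      have h3 := hO (fun u => g (σ u x)) (fun r => Q (b * K ^ 8 + r)) C δ (c * S) (C' * S) (K ^ 8)
        (fun u v => hgl u v x) (fun u v => hgp u v x) hδne (by positivity)
        (fun r hr => by
          have h4 := hup b r hb hr
          have h5 := hinc (b * K ^ 8 + r) (by omega) (by omega)
          exact ⟨h5.1, h5.2.1⟩)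
        (fun r hr => by
          have h4 := hup b (r + 1) hb hr
          have h5 := hinc (b * K ^ 8 + r) (by omega) (by omega)
          exact h5.2.2)
      have h4 : C / (|δ| * (c * S)) ≤ C / c * (K : ℝ) ^ 6 := by
        rw [div_le_iff₀ (by positivity)]
        have h5 : 1 ≤ |δ| * (S * (K : ℝ) ^ 6) := by
          rw [div_le_iff₀ (by positivity)] at hδ1
          exact hδ1
        calc C = C * 1 := by ring
          _ ≤ C * (|δ| * (S * (K : ℝ) ^ 6)) := by gcongr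
          _ = C / c * (K : ℝ) ^ 6 * (|δ| * (c * S)) := by field_simp
      have h6 : C * ((K ^ 8 : ℕ) : ℝ) * |δ| * (C' * S) ≤ C * C' * (K : ℝ) ^ 6 := by
        have h7 : |δ| * (S * (K : ℝ) ^ 2) ≤ 1 := by
          rwa [le_div_iff₀ (by positivity)] at hδ2
        push_cast
        calc C * (K : ℝ) ^ 8 * |δ| * (C' * S) = C * C' * (K : ℝ) ^ 6 * (|δ| * (S * (K : ℝ) ^ 2)) := by ring
          _ ≤ C * C' * (K : ℝ) ^ 6 * 1 := by gcongr
          _ = _ := by ring
      have h8 : ε * ((K ^ 8 : ℕ) : ℝ) = (C / c + C * C') * (K : ℝ) ^ 6 := by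
        rw [hε]
        push_cast
        field_simp
      rw [h8]
      calc |g x| * |∑ r ∈ range (K ^ 8), g (σ (δ * Q (b * K ^ 8 + r)) x)| ≤
            1 * |∑ r ∈ range (K ^ 8), g (σ (δ * Q (b * K ^ 8 + r)) x)| := by gcongr; exact hg1 x
        _ ≤ C / (|δ| * (c * S)) + C * ((K ^ 8 : ℕ) : ℝ) * |δ| * (C' * S) := by rw [one_mul]; exact h3
        _ ≤ C / c * (K : ℝ) ^ 6 + C * C' * (K : ℝ) ^ 6 := add_le_add h4 h6
        _ = _ := by ring
    refine ⟨fun r r' hr hr' => ⟨?_, ?_⟩, hosc b hL1 hb, hosc b' hL2 hb'⟩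
    · have h3 : b' + K ^ 4 < b ∨ b + K ^ 4 < b' := by
        by_contra h
        push Not at h
        exact hnb (Or.inl ⟨h.1, h.2⟩)
      rcases h3 with h3 | h3
      · exact (hfar b b' hL1 hL2 hb hb' h3 r r' hr hr').trans (le_abs_self _)
      · rw [abs_sub_comm]
        exact (hfar b' b hL2 hL1 hb' hb h3 r' r hr' hr).trans (le_abs_self _)
    · have h3 := hblock b hL1 hb r hr
      have h4 := hblock b' hL2 hb' r' hr'
      rw [abs_le]
      constructor <;> linarith [h3.1, h3.2, h4.1, h4.2]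

end Pool.Agent.R497.TD
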