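import Pool.Agent.R497.TD.Core1

set_option autoImplicit false

/-! The main case: assembly. -/

namespace Pool.Agent.R497.TD

open MeasureTheory Filter Finset
open Pool.Agent.Y957.MC (IsFlow flowInv smo)

universe u

/-- the mean square bound, normalized -/
theorem jcore (hO : S_OSC) (hD : S_DBD.{u}) (hJ : S_JBD.{u}) (hP : S_PINC) {X : Type u} [MeasurableSpace X]
    {μ : Measure X} [IsProbabilityMeasure μ] {σ : ℝ → X → X} (hσ : IsFlow μ σ) {g : X → ℝ} (hgm : Measurable g)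
    (hg1 : ∀ x, |g x| ≤ 1) (hgl : ∀ u v x, |g (σ u x) - g (σ v x)| ≤ 1 * |u - v|)
    (hgp : ∀ u v x, |∫ r in u..v, g (σ r x)| ≤ 1) {P : Polynomial ℝ} (hd : 0 < P.natDegree)
    (hlc : 0 < P.leadingCoeff) {B : ℕ → ℝ → X → ℝ} (hBm : ∀ n, Measurable fun q : ℝ × X => B n q.1 q.2)
    (hB1 : ∀ n a x, |B n a x| ≤ 1)
    (hBl : ∀ n, 1 ≤ n → ∀ a a' x, |B n a x - B n a' x| ≤ 1 * (n : ℝ) ^ (P.natDegree - 1) * |a - a'|) (j : ℕ) :
    ∃ C' : ℝ, ∀ᶠ K : ℕ in atTop, ∫ a in (1 : ℝ)..2, ∫ x, ((1 / ((K ^ 16 : ℕ) : ℝ)) * ∑ n ∈ range (K ^ 16),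
      B (n + 1) a x * (if ⌊(1 / ((j : ℝ) + 1)) * ((K ^ 16 : ℕ) : ℝ)⌋₊ ≤ n then
        g (σ (a * P.eval ((n : ℝ) + 1)) x) else 0)) ^ 2 ∂μ ≤ C' / (K : ℝ) ^ 2 := by
  obtain ⟨c, C', hc, hC', hinc⟩ := hP P hd hlc j
  have h16 : Tendsto (fun K : ℕ => K ^ 16) atTop atTop := tendsto_pow_atTop (by norm_num)
  set C0 : ℝ := 15 + 6 * C' / c + 3 * (1 / c + 1 * C') ^ 2 with hC0
  have hC0p : 0 ≤ C0 := by rw [hC0]; positivity
  refine ⟨2 + C0 + 5 + 3, ?_⟩
  filter_upwards [h16.eventually hinc, eventually_ge_atTop 2] with K hK hK2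
  obtain ⟨L, hL⟩ : ∃ L : ℕ, L = ⌊(1 / ((j : ℝ) + 1)) * ((K ^ 16 : ℕ) : ℝ)⌋₊ := ⟨_, rfl⟩
  rw [← hL] at hK ⊢
  have hK1 : 1 ≤ K := by omega
  have hKR : (2 : ℝ) ≤ K := by exact_mod_cast hK2
  have hK0 : (0 : ℝ) < K := by linarith
  obtain ⟨S, hS⟩ : ∃ S : ℝ, S = ((K ^ 16 : ℕ) : ℝ) ^ (P.natDegree - 1) := ⟨_, rfl⟩
  rw [← hS] at hK
  have hN1 : (1 : ℝ) ≤ ((K ^ 16 : ℕ) : ℝ) := by exact_mod_cast Nat.one_le_pow _ _ hK1
  have hS1 : 1 ≤ S := by rw [hS]; exact one_le_pow₀ hN1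
  have hS0 : 0 < S := by linarith
  set Q : ℕ → ℝ := fun n => P.eval ((n : ℝ) + 1) with hQ
  have hQ1 : ∀ n : ℕ, Q (n + 1) = P.eval ((n : ℝ) + 2) := by
    intro n
    simp only [hQ]
    congr 1
    push_cast
    ring
  have hQ2 : ∀ n : ℕ, Q (n + 2) = P.eval ((n : ℝ) + 3) := by
    intro n
    simp only [hQ]
    congr 1
    push_cast
    ring
  have hincQ : ∀ n, L ≤ n → n ≤ K ^ 16 → c * S ≤ Q (n + 1) - Q n ∧ Q (n + 1) - Q n ≤ C' * S ∧
      Q (n + 1) - Q n ≤ Q (n + 2) - Q (n + 1) := by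
    intro n h1 h2
    rw [hQ1, hQ2]
    exact hK n h1 h2
  set gn : ℕ → X → ℝ := fun n x => if L ≤ n then g x else 0 with hgn
  have hgnm : ∀ n, Measurable (gn n) := by
    intro n
    simp only [hgn]
    split_ifs
    · exact hgm
    · exact measurable_const
  have hgn1 : ∀ n x, |gn n x| ≤ 1 := by
    intro n x
    simp only [hgn]
    split_ifs
    · exact hg1 x
    · simp
  have hrat : 5 * (1 / (S * (K : ℝ) ^ 6)) / (1 / (S * (K : ℝ) ^ 2)) = 5 / (K : ℝ) ^ 4 := by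
    field_simp
  have key := hJ X μ σ gn (fun n => B (n + 1)) Q (K ^ 16) (1 / (S * (K : ℝ) ^ 2)) (1 / (S * (K : ℝ) ^ 6))
    (1 / (K : ℝ) ^ 2) (1 * S) (C0 / (K : ℝ) ^ 4) hσ hgnm hgn1 (fun n => hBm (n + 1)) (fun n => hB1 (n + 1))
    (fun n hn a a' x => by
      refine (hBl (n + 1) (by omega) a a' x).trans ?_
      have h1 : ((n + 1 : ℕ) : ℝ) ^ (P.natDegree - 1) ≤ S := by
        rw [hS]
        refine pow_le_pow_left₀ (by positivity) ?_ _
        exact_mod_cast hn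
      gcongr)
    (by positivity) (by positivity)
    (by
      rw [div_le_div_iff₀ (by positivity) (by norm_num)]
      nlinarith [mul_le_mul hS1 (show (2 : ℝ) ≤ (K : ℝ) ^ 2 by nlinarith) (by norm_num) hS0.le])
    (by positivity) (by positivity) (by positivity) (by positivity)
    (fun δ h1 h2 => by
      have h3 := dcore hO hD hσ hgm hg1 hgl hgp hK1 hc hC' hS0 hincQ h1 h2
      exact h3)
  refine key.trans ?_
  rw [hrat]
  have e1 : 1 * S * (1 / (S * (K : ℝ) ^ 2)) = 1 / (K : ℝ) ^ 2 := by field_simp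
  rw [e1]
  have e2 : 1 / (1 / (K : ℝ) ^ 2) * (C0 / (K : ℝ) ^ 4 + 5 / (K : ℝ) ^ 4) = (C0 + 5) / (K : ℝ) ^ 2 := by
    field_simp
  rw [e2]
  have e3 : 3 * (1 / (K : ℝ) ^ 2) ^ 2 ≤ 3 / (K : ℝ) ^ 2 := by
    have h1 : (1 : ℝ) ≤ (K : ℝ) ^ 2 := by nlinarith
    have h2 : 1 / (K : ℝ) ^ 2 ≤ 1 := by
      rw [div_le_one (by positivity)]
      exact h1
    have h3 : 0 ≤ 1 / (K : ℝ) ^ 2 := by positivity
    calc 3 * (1 / (K : ℝ) ^ 2) ^ 2 = 3 * ((1 / (K : ℝ) ^ 2) * (1 / (K : ℝ) ^ 2)) := by ring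
      _ ≤ 3 * ((1 / (K : ℝ) ^ 2) * 1) := by gcongr
      _ = _ := by ring
  calc 2 * (1 / (K : ℝ) ^ 2) + (C0 + 5) / (K : ℝ) ^ 2 + 3 * (1 / (K : ℝ) ^ 2) ^ 2 ≤
        2 * (1 / (K : ℝ) ^ 2) + (C0 + 5) / (K : ℝ) ^ 2 + 3 / (K : ℝ) ^ 2 := by gcongr
    _ = _ := by ring

/-- normalized convergence -/
theorem ccore (hO : S_OSC) (hD : S_DBD.{u}) (hJ : S_JBD.{u}) (hP : S_PINC) (hB : S_BC.{u}) {X : Type u}
    [MeasurableSpace X] {μ : Measure X} [IsProbabilityMeasure μ] {σ : ℝ → X → X} (hσ : IsFlow μ σ) {g : X → ℝ}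
    (hgm : Measurable g) (hg1 : ∀ x, |g x| ≤ 1) (hgl : ∀ u v x, |g (σ u x) - g (σ v x)| ≤ 1 * |u - v|)
    (hgp : ∀ u v x, |∫ r in u..v, g (σ r x)| ≤ 1) {P : Polynomial ℝ} (hd : 0 < P.natDegree)
    (hlc : 0 < P.leadingCoeff) {B : ℕ → ℝ → X → ℝ} (hBm : ∀ n, Measurable fun q : ℝ × X => B n q.1 q.2)
    (hB1 : ∀ n a x, |B n a x| ≤ 1)
    (hBl : ∀ n, 1 ≤ n → ∀ a a' x, |B n a x - B n a' x| ≤ 1 * (n : ℝ) ^ (P.natDegree - 1) * |a - a'|) :
    ∀ᵐ a ∂(volume.restrict (Set.Icc (1 : ℝ) 2)), ∀ᵐ x ∂μ,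
      Tendsto (fun N : ℕ => (1 / (N : ℝ)) * ∑ n ∈ Icc 1 N, B n a x * g (σ (a * P.eval (n : ℝ)) x))
        atTop (nhds 0) := by
  rw [← restrict_Ioc_eq_restrict_Icc]
  have hcm : ∀ n : ℕ, Measurable fun q : ℝ × X => B n q.1 q.2 * g (σ (q.1 * P.eval (n : ℝ)) q.2) := fun n =>
    (hBm n).mul (hgm.comp (hσ.meas.comp ((measurable_fst.mul_const _).prodMk measurable_snd)))
  have hc1 : ∀ (n : ℕ) (q : ℝ × X), |B n q.1 q.2 * g (σ (q.1 * P.eval (n : ℝ)) q.2)| ≤ 1 := fun n q => by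
    rw [abs_mul]
    exact mul_le_one₀ (hB1 _ _ _) (abs_nonneg _) (hg1 _)
  have h1 := hB (ℝ × X) ((volume.restrict (Set.Ioc (1 : ℝ) 2)).prod μ)
    (fun n q => B n q.1 q.2 * g (σ (q.1 * P.eval (n : ℝ)) q.2)) hcm hc1 ?_
  · exact Measure.ae_ae_of_ae_prod h1
  · intro j
    obtain ⟨C', hC'⟩ := jcore hO hD hJ hP hσ hgm hg1 hgl hgp hd hlc hBm hB1 hBl j
    refine ⟨C', ?_⟩
    filter_upwards [hC'] with K hK
    refine le_trans (le_of_eq ?_) hK
    rw [intervalIntegral.integral_of_le (by norm_num)]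
    rw [integral_prod]
    · refine integral_congr_ae (ae_of_all _ fun a => ?_)
      refine integral_congr_ae (ae_of_all _ fun x => ?_)
      simp only
      congr 2
      refine sum_congr rfl fun n _ => ?_
      split_ifs
      · push_cast
        rfl
      · rw [mul_zero]
    · refine Integrable.of_bound (C := 1) ?_ (ae_of_all _ fun q => ?_)
      · refine (Measurable.pow_const (measurable_const.mul (Finset.measurable_sum _ fun n _ => ?_)) 2).aestronglyMeasurable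
        split_ifs
        · exact hcm (n + 1)
        · exact measurable_const
      · rw [Real.norm_eq_abs, abs_pow]
        refine pow_le_one₀ (abs_nonneg _) ?_
        rcases Nat.eq_zero_or_pos (K ^ 16) with h0 | h0
        · rw [h0]; simp
        · have hN : (0 : ℝ) < ((K ^ 16 : ℕ) : ℝ) := by exact_mod_cast h0
          rw [abs_mul, abs_of_pos (by positivity : (0 : ℝ) < 1 / ((K ^ 16 : ℕ) : ℝ)), one_div, inv_mul_le_iff₀ hN,
            mul_one]
          refine (abs_sum_le_sum_abs _ _).trans ?_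
          calc _ ≤ ∑ n ∈ range (K ^ 16), (1 : ℝ) := by
                refine sum_le_sum fun n _ => ?_
                split_ifs
                · exact hc1 (n + 1) q
                · simp
            _ = _ := by simp

theorem t_CORE (hO : S_OSC) (hD : S_DBD.{u}) (hJ : S_JBD.{u}) (hP : S_PINC) (hB : S_BC.{u}) : S_CORE.{u} := by
  intro X _ μ _ σ g P B hσ hg hd hlc hBn
  obtain ⟨hgm, C1, hg1, hgl, hgp⟩ := hg
  obtain ⟨hBm, C2, hB2, hBl⟩ := hBn
  obtain ⟨C, hC⟩ : ∃ C : ℝ, C = max (max C1 C2) 1 := ⟨_, rfl⟩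
  have hC1 : C1 ≤ C := hC ▸ (le_max_left _ _).trans (le_max_left _ _)
  have hC2 : C2 ≤ C := hC ▸ (le_max_right _ _).trans (le_max_left _ _)
  have hC0 : 0 < C := lt_of_lt_of_le one_pos (hC ▸ le_max_right _ _)
  have hdiv : ∀ z : ℝ, |z| ≤ C → |z / C| ≤ 1 := fun z hz => by
    rw [abs_div, abs_of_pos hC0, div_le_one hC0]; exact hz
  have hreal : ∀ B' : ℕ → ℝ → X → ℝ, (∀ n, Measurable fun q : ℝ × X => B' n q.1 q.2) → (∀ n a x, |B' n a x| ≤ C) →
      (∀ n, 1 ≤ n → ∀ a a' x, |B' n a x - B' n a' x| ≤ C * (n : ℝ) ^ (P.natDegree - 1) * |a - a'|) →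
      ∀ᵐ a ∂(volume.restrict (Set.Icc (1 : ℝ) 2)), ∀ᵐ x ∂μ,
      Tendsto (fun N : ℕ => (1 / (N : ℝ)) * ∑ n ∈ Icc 1 N, B' n a x * g (σ (a * P.eval (n : ℝ)) x))
        atTop (nhds 0) := by
    intro B' hm hb hl
    have h1 := ccore hO hD hJ hP hB hσ (g := fun x => g x / C) (hgm.div_const C) (fun x => hdiv _ ((hg1 x).trans hC1))
      (fun u v x => by
        rw [← sub_div, abs_div, abs_of_pos hC0, div_le_iff₀ hC0, one_mul, mul_comm]
        refine (hgl u v x).trans ?_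
        gcongr)
      (fun u v x => by
        rw [intervalIntegral.integral_div]
        exact hdiv _ ((hgp u v x).trans hC1))
      hd hlc (B := fun n a x => B' n a x / C) (fun n => (hm n).div_const C) (fun n a x => hdiv _ (hb n a x))
      (fun n hn a a' x => by
        rw [← sub_div, abs_div, abs_of_pos hC0, div_le_iff₀ hC0]
        refine (hl n hn a a' x).trans (le_of_eq ?_)
        ring)
    filter_upwards [h1] with a ha
    filter_upwards [ha] with x hx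
    have h2 := hx.const_mul (C * C)
    rw [mul_zero] at h2
    refine h2.congr fun N => ?_
    rw [← mul_assoc, mul_comm (C * C), mul_assoc, mul_sum]
    congr 1
    refine sum_congr rfl fun n _ => ?_
    field_simp
  have hre := hreal (fun n a x => (B n a x).re) (fun n => Complex.measurable_re.comp (hBm n))
    (fun n a x => (Complex.abs_re_le_norm _).trans ((hB2 n a x).trans hC2))
    (fun n hn a a' x => by
      rw [← Complex.sub_re]
      refine (Complex.abs_re_le_norm _).trans ((hBl n hn a a' x).trans ?_)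
      gcongr)
  have him := hreal (fun n a x => (B n a x).im) (fun n => Complex.measurable_im.comp (hBm n))
    (fun n a x => (Complex.abs_im_le_norm _).trans ((hB2 n a x).trans hC2))
    (fun n hn a a' x => by
      rw [← Complex.sub_im]
      refine (Complex.abs_im_le_norm _).trans ((hBl n hn a a' x).trans ?_)
      gcongr)
  filter_upwards [hre, him] with a ha1 ha2
  filter_upwards [ha1, ha2] with x hx1 hx2
  have h3 : Tendsto (fun N : ℕ => (((1 / (N : ℝ)) * ∑ n ∈ Icc 1 N, (B n a x).re * g (σ (a * P.eval (n : ℝ)) x) : ℝ) : ℂ))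
      atTop (nhds ((0 : ℝ) : ℂ)) := (Complex.continuous_ofReal.tendsto 0).comp hx1
  have h4 : Tendsto (fun N : ℕ => (((1 / (N : ℝ)) * ∑ n ∈ Icc 1 N, (B n a x).im * g (σ (a * P.eval (n : ℝ)) x) : ℝ) : ℂ))
      atTop (nhds ((0 : ℝ) : ℂ)) := (Complex.continuous_ofReal.tendsto 0).comp hx2
  have h5 := h3.add (h4.mul_const Complex.I)
  rw [Complex.ofReal_zero, zero_mul, add_zero] at h5
  refine h5.congr fun N => ?_
  push_cast
  rw [mul_assoc, ← mul_add, sum_mul, ← sum_add_distrib]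
  congr 1
  refine sum_congr rfl fun n _ => ?_
  conv_rhs => rw [← Complex.re_add_im (B n a x)]
  ring

end Pool.Agent.R497.TD
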