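import Pool.Agent.R497.TD.Defs
import Pool.Agent.R62.TD.Fin

set_option autoImplicit false

/-! Decoupling of the factor of highest degree, and two-sided averages along polynomials of distinct degrees. -/

namespace Pool.Agent.R497.TD

open MeasureTheory Filter Finset
open Pool.Agent.Y957.MC (IsFlow flowInv smo)

universe u

/-- the factor of highest degree decouples -/
theorem dec (h1 : S_TOP.{u}) (h2 : S_FG.{u}) (h3 : S_PROD.{u}) (h4 : S_WG.{u}) {X : Type u} [MeasurableSpace X]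
    {μ : Measure X} [IsProbabilityMeasure μ] {m : ℕ} {τ : Fin m → ℝ → X → X} {f : Fin m → X → ℂ}
    {P : Fin m → Polynomial ℝ} (hτ : ∀ j, IsFlow μ (τ j))
    (hf : ∀ j, AEStronglyMeasurable (f j) μ) (hfb : ∀ j, ∃ C : ℝ, ∀ᵐ x ∂μ, ‖f j x‖ ≤ C)
    (hP : ∀ j, 0 < (P j).natDegree) {σ : ℝ → X → X} {Q : Polynomial ℝ} {g : X → ℂ} {W : ℕ → X → ℂ}
    (hσ : IsFlow μ σ) (hg : AEStronglyMeasurable g μ) (hgb : ∃ C : ℝ, ∀ᵐ x ∂μ, ‖g x‖ ≤ C) (hQ : 0 < Q.natDegree)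
    (hPQ : ∀ j, (P j).natDegree < Q.natDegree) (hW : ∀ n, AEStronglyMeasurable (W n) μ)
    (hWb : ∃ C : ℝ, ∀ n, ∀ᵐ x ∂μ, ‖W n x‖ ≤ C) : ∀ᵐ a : ℝ, ∀ᵐ x ∂μ,
      Tendsto (fun N : ℕ => (1 / (N : ℂ)) * ∑ n ∈ Icc 1 N, (W n x * ∏ j, f j (τ j (a * (P j).eval (n : ℝ)) x)) *
        (g (σ (a * Q.eval (n : ℝ)) x) - (μ[g | flowInv σ]) x)) atTop (nhds 0) :=
  h1 X μ σ g Q _ hσ hg hgb hQ
    (Pool.Agent.R62.TD.good h2 h3 h4 μ hτ hf hfb hP hW hWb Q.natDegree univ fun j _ => hPQ j)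

lemma sum_two {φ : ℤ → ℂ} (N : ℕ) :
    ∑ n ∈ Icc (-(N : ℤ)) N, φ n = φ 0 + ∑ n ∈ Icc 1 N, φ (n : ℤ) + ∑ n ∈ Icc 1 N, φ (-(n : ℤ)) := by
  induction N with
  | zero => simp
  | succ N ih =>
    have hI : Icc (-((N + 1 : ℕ) : ℤ)) ((N + 1 : ℕ) : ℤ) =
        insert (-((N + 1 : ℕ) : ℤ)) (insert ((N + 1 : ℕ) : ℤ) (Icc (-(N : ℤ)) N)) := by
      ext z
      simp only [mem_Icc, mem_insert]
      push_cast
      omega
    rw [hI, sum_insert, sum_insert, ih, sum_Icc_succ_top (by omega), sum_Icc_succ_top (by omega)]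
    · ring
    · simp only [mem_Icc]; push_cast; omega
    · simp only [mem_Icc, mem_insert]; push_cast; omega

lemma lim_one : Tendsto (fun N : ℕ => (1 / (2 * (N : ℂ) + 1))) atTop (nhds 0) := by
  have : Tendsto (fun N : ℕ => (((1 / (2 * (N : ℝ) + 1)) : ℝ) : ℂ)) atTop (nhds ((0 : ℝ) : ℂ)) := by
    refine (Complex.continuous_ofReal.tendsto _).comp ?_
    refine Tendsto.div_atTop tendsto_const_nhds ?_
    exact tendsto_atTop_add_const_right _ _ (Tendsto.const_mul_atTop (by norm_num) tendsto_natCast_atTop_atTop)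
  simpa using this

lemma two_ne (N : ℕ) : (2 * (N : ℂ) + 1) ≠ 0 := by
  have : ((2 * (N : ℝ) + 1 : ℝ) : ℂ) ≠ 0 := by
    exact_mod_cast (by positivity : (2 * (N : ℝ) + 1) ≠ 0)
  simpa using this

lemma lim_half : Tendsto (fun N : ℕ => ((N : ℂ) / (2 * (N : ℂ) + 1))) atTop (nhds (1 / 2)) := by
  have e : (fun N : ℕ => ((N : ℂ) / (2 * (N : ℂ) + 1))) = fun N : ℕ => 1 / 2 - 1 / 2 * (1 / (2 * (N : ℂ) + 1)) := by
    funext N
    have := two_ne N
    rw [div_eq_iff this, sub_mul, mul_assoc (1 / 2 : ℂ) (1 / (2 * (N : ℂ) + 1)), one_div_mul_cancel this]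
    ring
  rw [e]
  have := (lim_one.const_mul (1 / 2 : ℂ)).const_sub (1 / 2 : ℂ)
  simpa using this

/-- two-sided averages from one-sided ones -/
lemma two_sided {φ : ℤ → ℂ} (h1 : Tendsto (fun N : ℕ => (1 / (N : ℂ)) * ∑ n ∈ Icc 1 N, φ (n : ℤ)) atTop (nhds 0))
    (h2 : Tendsto (fun N : ℕ => (1 / (N : ℂ)) * ∑ n ∈ Icc 1 N, φ (-(n : ℤ))) atTop (nhds 0)) :
    Tendsto (fun N : ℕ => (1 / (2 * (N : ℂ) + 1)) * ∑ n ∈ Icc (-(N : ℤ)) N, φ n) atTop (nhds 0) := by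
  have h7 := (lim_one.const_mul (φ 0)).add (lim_half.mul (h1.add h2))
  rw [show φ 0 * 0 + 1 / 2 * (0 + 0) = (0 : ℂ) by ring] at h7
  refine h7.congr fun N => ?_
  rw [sum_two]
  rcases Nat.eq_zero_or_pos N with rfl | hN
  · simp
  · have hN' : (N : ℂ) ≠ 0 := by exact_mod_cast hN.ne'
    have := two_ne N
    field_simp
    ring

/-- distinct degrees, two-sided averages with weights -/
theorem fin_two (h : S_FIN.{u}) {X : Type u} [MeasurableSpace X]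
    {μ : Measure X} [IsProbabilityMeasure μ] {m : ℕ} {τ : Fin m → ℝ → X → X} {f : Fin m → X → ℂ}
    {P : Fin m → Polynomial ℝ} (hτ : ∀ j, IsFlow μ (τ j))
    (hf : ∀ j, AEStronglyMeasurable (f j) μ) (hfb : ∀ j, ∃ C : ℝ, ∀ᵐ x ∂μ, ‖f j x‖ ≤ C)
    (hP : ∀ j, 0 < (P j).natDegree) (hinj : Function.Injective fun j => (P j).natDegree) {W : ℤ → X → ℂ}
    (hW : ∀ n, AEStronglyMeasurable (W n) μ) (hWb : ∃ C : ℝ, ∀ n, ∀ᵐ x ∂μ, ‖W n x‖ ≤ C) : ∀ᵐ a : ℝ, ∀ᵐ x ∂μ,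
      Tendsto (fun N : ℕ => (1 / (2 * (N : ℂ) + 1)) * ∑ n ∈ Icc (-(N : ℤ)) N,
        W n x * (∏ j, f j (τ j (a * (P j).eval (n : ℝ)) x) - ∏ j, (μ[f j | flowInv (τ j)]) x)) atTop (nhds 0) := by
  obtain ⟨C, hC⟩ := hWb
  have h1 := h X μ m τ f P (fun n => W (n : ℤ)) hτ hf hfb hP hinj (fun n => hW _) ⟨C, fun n => hC _⟩
  have hdeg : ∀ j, ((P j).comp (-Polynomial.X)).natDegree = (P j).natDegree := fun j => by
    rw [Polynomial.natDegree_comp, Polynomial.natDegree_neg, Polynomial.natDegree_X, mul_one]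
  have h2 := h X μ m τ f (fun j => (P j).comp (-Polynomial.X)) (fun n => W (-(n : ℤ))) hτ hf hfb
    (fun j => by rw [hdeg]; exact hP j) (fun i j hij => hinj (by simpa only [hdeg] using hij)) (fun n => hW _)
    ⟨C, fun n => hC _⟩
  filter_upwards [h1, h2] with a ha1 ha2
  filter_upwards [ha1, ha2] with x hx1 hx2
  refine two_sided ?_ ?_
  · refine hx1.congr fun N => ?_
    rw [mul_left_comm, ← mul_sub, mul_sum, ← sum_sub_distrib]
    congr 1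
    refine sum_congr rfl fun n _ => ?_
    push_cast
    ring
  · refine hx2.congr fun N => ?_
    rw [mul_left_comm, ← mul_sub, mul_sum, ← sum_sub_distrib]
    congr 1
    refine sum_congr rfl fun n _ => ?_
    simp only [Polynomial.eval_comp, Polynomial.eval_neg, Polynomial.eval_X]
    push_cast
    ring

end Pool.Agent.R497.TD
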